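import Mathlib

/-!
# Term equivalent finite groups with the same subgroups in all powers

`G = (C₂₅ × C₁₁) ⋊ C₅`, of order `1375`: the generator of `C₅` acts on `C₂₅` as the power `6`, and
on `C₁₁` as the power `3`.

`K` is the group on the same set with `x ∘ y = x y [x, y] ^ 33`. On the factor `C₂₅ ⋊ C₅`, of class
`2` with derived subgroup of order `5`, this is `x y [x, y] ^ 3`, on the factor `C₁₁ ⋊ C₅` this is
`x y`. In `K` the generator of `C₅` acts on `C₂₅` as the power `11` and on `C₁₁` as the power `3`.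
Conversely `x y = x ∘ y ∘ [x, y]_∘ ^ 11`. So `G ^ ι` and `K ^ ι` have literally the same
subgroups, for every `ι`. But `G` and `K` are not isomorphic.
-/

set_option autoImplicit false

namespace Pool.Agent.Helper73_Schmidt

/-! ### generalities -/

section General

variable {G K : Type} [Group G] [Group K]

/-- `e : K ≃ G` is a term equivalence: the operations of each of the groups are given by words in
the operations of the other one. -/
structure TermEquiv (e : K ≃ G) : Prop where
  mul : ∀ x y : K, e (x * y) = e x * e y * ((e x)⁻¹ * (e y)⁻¹ * e x * e y) ^ 33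
  inv : ∀ x : K, e x⁻¹ = (e x)⁻¹
  symm_mul : ∀ x y : G, e.symm (x * y) =
    e.symm x * e.symm y * ((e.symm x)⁻¹ * (e.symm y)⁻¹ * e.symm x * e.symm y) ^ 11

variable {e : K ≃ G} (he : TermEquiv e)
include he

theorem TermEquiv.map_one : e 1 = 1 := by
  have h := he.mul 1 1
  simpa using h

theorem TermEquiv.symm_map_one : e.symm 1 = 1 := by
  rw [Equiv.symm_apply_eq, he.map_one]

theorem TermEquiv.symm_inv (x : G) : e.symm x⁻¹ = (e.symm x)⁻¹ := by
  rw [Equiv.symm_apply_eq, he.inv, Equiv.apply_symm_apply]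

variable (ι : Type)

/-- the subgroup of `K ^ ι` with the same elements as `S` -/
def toK (S : Subgroup (ι → G)) : Subgroup (ι → K) where
  carrier := {f | (fun i => e (f i)) ∈ S}
  mul_mem' := by
    intro f g hf hg
    have h : (fun i => e ((f * g) i)) = (fun i => e (f i)) * (fun i => e (g i)) *
        ((fun i => e (f i))⁻¹ * (fun i => e (g i))⁻¹ * (fun i => e (f i)) * (fun i => e (g i))) ^ 33 := by
      funext i
      simp only [Pi.mul_apply, Pi.pow_apply, Pi.inv_apply]
      exact he.mul _ _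
    show (fun i => e ((f * g) i)) ∈ S
    rw [h]
    exact S.mul_mem (S.mul_mem hf hg)
      (S.pow_mem (S.mul_mem (S.mul_mem (S.mul_mem (S.inv_mem hf) (S.inv_mem hg)) hf) hg) 33)
  one_mem' := by
    have h : (fun i : ι => e ((1 : ι → K) i)) = 1 := by
      funext i
      exact he.map_one
    show (fun i : ι => e ((1 : ι → K) i)) ∈ S
    rw [h]
    exact S.one_mem
  inv_mem' := by
    intro f hf
    have h : (fun i => e (f⁻¹ i)) = (fun i => e (f i))⁻¹ := by
      funext i
      exact he.inv _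
    show (fun i => e (f⁻¹ i)) ∈ S
    rw [h]
    exact S.inv_mem hf

/-- the subgroup of `G ^ ι` with the same elements as `S` -/
def toG (S : Subgroup (ι → K)) : Subgroup (ι → G) where
  carrier := {f | (fun i => e.symm (f i)) ∈ S}
  mul_mem' := by
    intro f g hf hg
    have h : (fun i => e.symm ((f * g) i)) = (fun i => e.symm (f i)) * (fun i => e.symm (g i)) *
        ((fun i => e.symm (f i))⁻¹ * (fun i => e.symm (g i))⁻¹ * (fun i => e.symm (f i)) *
          (fun i => e.symm (g i))) ^ 11 := by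
      funext i
      simp only [Pi.mul_apply, Pi.pow_apply, Pi.inv_apply]
      exact he.symm_mul _ _
    show (fun i => e.symm ((f * g) i)) ∈ S
    rw [h]
    exact S.mul_mem (S.mul_mem hf hg)
      (S.pow_mem (S.mul_mem (S.mul_mem (S.mul_mem (S.inv_mem hf) (S.inv_mem hg)) hf) hg) 11)
  one_mem' := by
    have h : (fun i : ι => e.symm ((1 : ι → G) i)) = 1 := by
      funext i
      exact he.symm_map_one
    show (fun i : ι => e.symm ((1 : ι → G) i)) ∈ S
    rw [h]
    exact S.one_mem
  inv_mem' := by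
    intro f hf
    have h : (fun i => e.symm (f⁻¹ i)) = (fun i => e.symm (f i))⁻¹ := by
      funext i
      exact he.symm_inv _
    show (fun i => e.symm (f⁻¹ i)) ∈ S
    rw [h]
    exact S.inv_mem hf

theorem mem_toK {S : Subgroup (ι → G)} {f : ι → K} :
    f ∈ toK he ι S ↔ (fun i => e (f i)) ∈ S := Iff.rfl

theorem mem_toG {S : Subgroup (ι → K)} {f : ι → G} :
    f ∈ toG he ι S ↔ (fun i => e.symm (f i)) ∈ S := Iff.rfl

/-- The lattices of subgroups of `G ^ ι` and of `K ^ ι` coincide. -/
def subEquiv : Subgroup (ι → G) ≃o Subgroup (ι → K) where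
  toFun := toK he ι
  invFun := toG he ι
  left_inv := by
    intro S
    ext f
    rw [mem_toG, mem_toK]
    simp
  right_inv := by
    intro S
    ext f
    rw [mem_toK, mem_toG]
    simp
  map_rel_iff' := by
    intro S S'
    constructor
    · intro h f hf
      have h1 : (fun i => e.symm (f i)) ∈ toK he ι S := by
        rw [mem_toK]
        simpa using hf
      have h2 := h h1
      change (fun i => e.symm (f i)) ∈ toK he ι S' at h2
      rw [mem_toK] at h2
      simpa using h2
    · intro h f hf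
      exact h hf

omit he in
theorem mem_range_mulSingle {L : Type} [Group L] {ι : Type} [DecidableEq ι] (i : ι) (f : ι → L) :
    f ∈ (MonoidHom.mulSingle (fun _ : ι => L) i).range ↔ ∀ j, j ≠ i → f j = 1 := by
  constructor
  · rintro ⟨x, rfl⟩ j hj
    simp [Pi.mulSingle_eq_of_ne hj]
  · intro h
    refine ⟨f i, ?_⟩
    funext j
    by_cases hj : j = i
    · subst hj
      simp
    · rw [h j hj]
      simp [Pi.mulSingle_eq_of_ne hj]

theorem subEquiv_range [DecidableEq ι] (i : ι) :
    subEquiv he ι (MonoidHom.mulSingle (fun _ : ι => G) i).range =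
      (MonoidHom.mulSingle (fun _ : ι => K) i).range := by
  ext f
  show f ∈ toK he ι _ ↔ _
  rw [mem_toK, mem_range_mulSingle, mem_range_mulSingle]
  constructor
  · intro h j hj
    have := h j hj
    rw [← he.map_one] at this
    exact e.injective this
  · intro h j hj
    show e (f j) = 1
    rw [h j hj, he.map_one]

end General

/-! ### coordinate subgroups -/

section Coord

variable (L : Type) [Group L] {ι : Type} [DecidableEq ι]

theorem coord_normal (i : ι) : ((MonoidHom.mulSingle (fun _ : ι => L) i).range).Normal := by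
  constructor
  intro f hf g
  rw [mem_range_mulSingle] at hf ⊢
  intro j hj
  simp [hf j hj]

theorem coord_sup : (⨆ i : Fin 2, (MonoidHom.mulSingle (fun _ : Fin 2 => L) i).range) = ⊤ := by
  rw [eq_top_iff]
  intro f _
  have h : f = Pi.mulSingle 0 (f 0) * Pi.mulSingle 1 (f 1) := by
    funext j
    fin_cases j <;> simp
  rw [h]
  apply Subgroup.mul_mem
  · exact (le_iSup (fun i : Fin 2 => (MonoidHom.mulSingle (fun _ : Fin 2 => L) i).range) 0) ⟨f 0, rfl⟩
  · exact (le_iSup (fun i : Fin 2 => (MonoidHom.mulSingle (fun _ : Fin 2 => L) i).range) 1) ⟨f 1, rfl⟩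

theorem coord_indep : iSupIndep (fun i : ι => (MonoidHom.mulSingle (fun _ : ι => L) i).range) := by
  intro i
  rw [disjoint_iff_inf_le]
  intro f hf
  obtain ⟨h1, h2⟩ := hf
  have h3 : (⨆ j, ⨆ (_ : j ≠ i), (MonoidHom.mulSingle (fun _ : ι => L) j).range) ≤
      (Pi.evalMonoidHom (fun _ : ι => L) i).ker := by
    apply iSup_le
    intro j
    apply iSup_le
    intro hj g hg
    rw [mem_range_mulSingle] at hg
    exact hg i (Ne.symm hj)
  have h4 : f i = 1 := h3 h2
  have h1' : f ∈ (MonoidHom.mulSingle (fun _ : ι => L) i).range := h1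
  rw [mem_range_mulSingle] at h1'
  show f = 1
  funext j
  by_cases hj : j = i
  · rw [hj]
    exact h4
  · exact h1' j hj

/-- the coordinate subgroup is isomorphic to the group -/
noncomputable def coordEquiv (i : ι) : L ≃* (MonoidHom.mulSingle (fun _ : ι => L) i).range :=
  MonoidHom.ofInjective (f := MonoidHom.mulSingle (fun _ : ι => L) i)
    (by
      intro x y h
      have := congrFun h i
      simpa using this)

end Coord

/-! ### the two groups -/

/-- multiplication by `5` from `ZMod 5` to `ZMod 25` -/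
def f (n : ZMod 5) : ZMod 25 := 5 * (n.val : ZMod 25)

/-- `n ↦ 3 ^ n` from `ZMod 5` to `ZMod 11` -/
def q (n : ZMod 5) : ZMod 11 := 3 ^ n.val

theorem f_add (n m : ZMod 5) : f (n + m) = f n + f m := by
  revert n m
  decide

theorem f_neg (n : ZMod 5) : f (-n) = -f n := by
  revert n
  decide

theorem f_zero : f 0 = 0 := by decide

theorem f_mul (n m : ZMod 5) : f n * f m = 0 := by
  revert n m
  decide

theorem f_five (n : ZMod 5) : 5 * f n = 0 := by
  revert n
  decide

theorem q_add (n m : ZMod 5) : q (n + m) = q n * q m := by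
  revert n m
  decide

theorem q_zero : q 0 = 1 := by decide

theorem q_inj (n m : ZMod 5) (h : q n = q m) : n = m := by
  revert n m
  decide

/-- triples of an element of `ZMod 25`, an element of `ZMod 11` and an element of `ZMod 5` -/
@[ext] structure G where
  a : ZMod 25
  b : ZMod 11
  n : ZMod 5

/-- triples of an element of `ZMod 25`, an element of `ZMod 11` and an element of `ZMod 5` -/
@[ext] structure K where
  a : ZMod 25
  b : ZMod 11
  n : ZMod 5

namespace G

instance : Mul G := ⟨fun x y => ⟨x.a + y.a + f x.n * y.a, x.b + q x.n * y.b, x.n + y.n⟩⟩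
instance : One G := ⟨⟨0, 0, 0⟩⟩
instance : Inv G := ⟨fun x => ⟨-x.a + f x.n * x.a, -(q (-x.n) * x.b), -x.n⟩⟩

@[simp] theorem mul_a (x y : G) : (x * y).a = x.a + y.a + f x.n * y.a := rfl
@[simp] theorem mul_b (x y : G) : (x * y).b = x.b + q x.n * y.b := rfl
@[simp] theorem mul_n (x y : G) : (x * y).n = x.n + y.n := rfl
@[simp] theorem one_a : (1 : G).a = 0 := rfl
@[simp] theorem one_b : (1 : G).b = 0 := rfl
@[simp] theorem one_n : (1 : G).n = 0 := rfl
@[simp] theorem inv_a (x : G) : (x⁻¹).a = -x.a + f x.n * x.a := rfl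
@[simp] theorem inv_b (x : G) : (x⁻¹).b = -(q (-x.n) * x.b) := rfl
@[simp] theorem inv_n (x : G) : (x⁻¹).n = -x.n := rfl

instance : Group G :=
  Group.ofLeftAxioms
    (by
      intro x y z
      ext
      · simp only [mul_a, mul_n, f_add]
        linear_combination (-z.a) * f_mul x.n y.n
      · simp only [mul_b, mul_n, q_add]
        ring
      · simp only [mul_n]
        ring)
    (by
      intro x
      ext
      · simp [f_zero]
      · simp [q_zero]
      · simp)
    (by
      intro x
      ext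
      · simp only [mul_a, inv_a, inv_n, one_a, f_neg]
        ring
      · simp only [mul_b, inv_b, inv_n, one_b]
        ring
      · simp)

theorem pow_n0 (c : G) (h : c.n = 0) (k : ℕ) :
    (c ^ k).a = k * c.a ∧ (c ^ k).b = k * c.b ∧ (c ^ k).n = 0 := by
  induction k with
  | zero => simp
  | succ k ih =>
    obtain ⟨h1, h2, h3⟩ := ih
    rw [pow_succ]
    refine ⟨?_, ?_, ?_⟩
    · rw [mul_a, h1, h3, f_zero]
      push_cast
      ring
    · rw [mul_b, h2, h3, q_zero]
      push_cast
      ring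
    · rw [mul_n, h3, h, add_zero]

end G

namespace K

instance : Mul K :=
  ⟨fun x y => ⟨x.a + y.a - f x.n * y.a + 2 * f y.n * x.a, x.b + q x.n * y.b, x.n + y.n⟩⟩
instance : One K := ⟨⟨0, 0, 0⟩⟩
instance : Inv K := ⟨fun x => ⟨-x.a + f x.n * x.a, -(q (-x.n) * x.b), -x.n⟩⟩

@[simp] theorem mul_a (x y : K) :
    (x * y).a = x.a + y.a - f x.n * y.a + 2 * f y.n * x.a := rfl
@[simp] theorem mul_b (x y : K) : (x * y).b = x.b + q x.n * y.b := rfl
@[simp] theorem mul_n (x y : K) : (x * y).n = x.n + y.n := rfl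
@[simp] theorem one_a : (1 : K).a = 0 := rfl
@[simp] theorem one_b : (1 : K).b = 0 := rfl
@[simp] theorem one_n : (1 : K).n = 0 := rfl
@[simp] theorem inv_a (x : K) : (x⁻¹).a = -x.a + f x.n * x.a := rfl
@[simp] theorem inv_b (x : K) : (x⁻¹).b = -(q (-x.n) * x.b) := rfl
@[simp] theorem inv_n (x : K) : (x⁻¹).n = -x.n := rfl

instance : Group K :=
  Group.ofLeftAxioms
    (by
      intro x y z
      ext
      · simp only [mul_a, mul_n, f_add]
        linear_combination (-z.a) * f_mul x.n y.n + (4 * x.a) * f_mul z.n y.n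
      · simp only [mul_b, mul_n, q_add]
        ring
      · simp only [mul_n]
        ring)
    (by
      intro x
      ext
      · simp [f_zero]
      · simp [q_zero]
      · simp)
    (by
      intro x
      ext
      · simp only [mul_a, inv_a, inv_n, one_a, f_neg]
        linear_combination (2 * x.a) * f_mul x.n x.n
      · simp only [mul_b, inv_b, inv_n, one_b]
        ring
      · simp)

theorem pow_n0 (c : K) (h : c.n = 0) (k : ℕ) :
    (c ^ k).a = k * c.a ∧ (c ^ k).b = k * c.b ∧ (c ^ k).n = 0 := by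
  induction k with
  | zero => simp
  | succ k ih =>
    obtain ⟨h1, h2, h3⟩ := ih
    rw [pow_succ]
    refine ⟨?_, ?_, ?_⟩
    · rw [mul_a, h1, h3, h, f_zero]
      push_cast
      ring
    · rw [mul_b, h2, h3, q_zero]
      push_cast
      ring
    · rw [mul_n, h3, h, add_zero]

end K

/-- the identity map -/
def idE : K ≃ G where
  toFun x := ⟨x.a, x.b, x.n⟩
  invFun x := ⟨x.a, x.b, x.n⟩
  left_inv _ := rfl
  right_inv _ := rfl

@[simp] theorem idE_a (x : K) : (idE x).a = x.a := rfl
@[simp] theorem idE_b (x : K) : (idE x).b = x.b := rfl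
@[simp] theorem idE_n (x : K) : (idE x).n = x.n := rfl
@[simp] theorem idE_symm_a (x : G) : (idE.symm x).a = x.a := rfl
@[simp] theorem idE_symm_b (x : G) : (idE.symm x).b = x.b := rfl
@[simp] theorem idE_symm_n (x : G) : (idE.symm x).n = x.n := rfl

theorem G_comm_a (x y : G) :
    (x⁻¹ * y⁻¹ * x * y).a = f x.n * y.a - f y.n * x.a := by
  simp only [G.mul_a, G.mul_n, G.inv_a, G.inv_n, f_add, f_neg]
  linear_combination (-y.a) * f_mul x.n y.n

theorem G_comm_n (x y : G) : (x⁻¹ * y⁻¹ * x * y).n = 0 := by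
  simp only [G.mul_n, G.inv_n]
  ring

theorem K_comm_a (x y : K) :
    (x⁻¹ * y⁻¹ * x * y).a = 2 * (f x.n * y.a - f y.n * x.a) := by
  simp only [K.mul_a, K.mul_n, K.inv_a, K.inv_n, f_add, f_neg]
  have h1 := f_mul x.n x.n
  have h2 := f_mul x.n y.n
  have h3 := f_mul y.n y.n
  have h4 := f_five x.n
  have h5 := f_five y.n
  generalize f x.n = P at *
  generalize f y.n = Q at *
  generalize x.a = a at *
  generalize y.a = b at *
  grind

theorem K_comm_n (x y : K) : (x⁻¹ * y⁻¹ * x * y).n = 0 := by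
  simp only [K.mul_n, K.inv_n]
  ring

theorem termEquiv : TermEquiv idE where
  mul := by
    intro x y
    have hc := G.pow_n0 ((idE x)⁻¹ * (idE y)⁻¹ * idE x * idE y) (G_comm_n _ _) 33
    ext
    · rw [G.mul_a, hc.1, G_comm_a]
      simp only [idE_a, idE_n, K.mul_a, G.mul_a, G.mul_n, f_add]
      have h1 := f_mul x.n x.n
      have h2 := f_mul x.n y.n
      have h3 := f_mul y.n y.n
      have h4 := f_five x.n
      have h5 := f_five y.n
      push_cast
      generalize f x.n = P at *
      generalize f y.n = Q at *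
      generalize x.a = a at *
      generalize y.a = b at *
      grind
    · rw [G.mul_b, hc.2.1]
      have h : ((33 : ℕ) : ZMod 11) = 0 := by decide
      rw [h, zero_mul, mul_zero, add_zero]
      rfl
    · rw [G.mul_n, hc.2.2]
      simp
  inv := by
    intro x
    ext <;> simp
  symm_mul := by
    intro x y
    have hc := K.pow_n0 ((idE.symm x)⁻¹ * (idE.symm y)⁻¹ * idE.symm x * idE.symm y)
      (K_comm_n _ _) 11
    ext
    · rw [K.mul_a, hc.1, hc.2.2, K_comm_a]
      simp only [idE_symm_a, idE_symm_n, K.mul_a, K.mul_n, G.mul_a, f_add, f_zero]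
      have h1 := f_mul x.n x.n
      have h2 := f_mul x.n y.n
      have h3 := f_mul y.n y.n
      have h4 := f_five x.n
      have h5 := f_five y.n
      push_cast
      generalize f x.n = P at *
      generalize f y.n = Q at *
      generalize x.a = a at *
      generalize y.a = b at *
      grind
    · rw [K.mul_b, hc.2.1]
      have h : ((11 : ℕ) : ZMod 11) = 0 := by decide
      rw [h, zero_mul, mul_zero, add_zero]
      rfl
    · rw [K.mul_n, hc.2.2]
      simp

/-! ### the groups are not isomorphic -/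

theorem not_iso (ψ : K ≃* G) : False := by
  -- the image of `s`
  have hs1 : (ψ ⟨0, 1, 0⟩) ^ 11 = 1 := by
    rw [← map_pow]
    have h : (⟨0, 1, 0⟩ : K) ^ 11 = 1 := by
      obtain ⟨h1, h2, h3⟩ := K.pow_n0 ⟨0, 1, 0⟩ rfl 11
      ext
      · rw [h1]; decide
      · rw [h2]; decide
      · rw [h3]; rfl
    rw [h, map_one]
  have hpn : ∀ (g : G) (k : ℕ), (g ^ k).n = k * g.n := by
    intro g k
    induction k with
    | zero => simp
    | succ k ih =>
      rw [pow_succ, G.mul_n, ih]
      push_cast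
      ring
  have hsn : (ψ ⟨0, 1, 0⟩).n = 0 := by
    have h1 := congrArg G.n hs1
    rw [hpn] at h1
    have h2 : ((11 : ℕ) : ZMod 5) = 1 := by decide
    rw [h2, one_mul] at h1
    exact h1
  have hsa : (ψ ⟨0, 1, 0⟩).a = 0 := by
    have h1 := congrArg G.a hs1
    rw [(G.pow_n0 _ hsn 11).1] at h1
    have h2 : ((16 : ℕ) : ZMod 25) * ((11 : ℕ) : ZMod 25) = 1 := by decide
    have h3 := congrArg (fun z : ZMod 25 => ((16 : ℕ) : ZMod 25) * z) h1
    simp only [← mul_assoc, h2, one_mul] at h3
    rw [h3]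
    exact mul_zero _
  set b : ZMod 11 := (ψ ⟨0, 1, 0⟩).b with hb
  have hs : ψ ⟨0, 1, 0⟩ = ⟨0, b, 0⟩ := by
    ext
    · exact hsa
    · rfl
    · exact hsn
  have hb0 : b ≠ 0 := by
    intro h0
    rw [h0] at hs
    have h1 : (⟨0, 1, 0⟩ : K) = 1 := by
      apply ψ.injective
      rw [hs, map_one]
      rfl
    have h2 := congrArg K.b h1
    revert h2
    decide
  have hcanc : ∀ u v : ZMod 11, u * b = v * b → u = v := by
    have : Fact (Nat.Prime 11) := ⟨by norm_num⟩
    intro u v h
    exact mul_right_cancel₀ hb0 h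
  -- the image of `x`
  have hx : (ψ ⟨0, 0, 1⟩).n = 1 := by
    have hrel : (⟨0, 0, 1⟩ : K) * ⟨0, 1, 0⟩ = ⟨0, 1, 0⟩ ^ 3 * ⟨0, 0, 1⟩ := by
      obtain ⟨h1, h2, h3⟩ := K.pow_n0 ⟨0, 1, 0⟩ rfl 3
      ext
      · rw [K.mul_a, K.mul_a, h1, h3]; decide
      · rw [K.mul_b, K.mul_b, h2, h3]; decide
      · rw [K.mul_n, K.mul_n, h3]; rfl
    have h1 := congrArg ψ hrel
    rw [map_mul, map_mul, map_pow, hs] at h1
    have h2 := congrArg G.b h1
    obtain ⟨h3, h4, h5⟩ := G.pow_n0 ⟨0, b, 0⟩ rfl 3
    rw [G.mul_b, G.mul_b, h4, h5, q_zero, one_mul] at h2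
    have h6 : q (ψ ⟨0, 0, 1⟩).n * b = ((3 : ℕ) : ZMod 11) * b := by
      linear_combination h2
    have h7 := hcanc _ _ h6
    apply q_inj
    rw [h7]
    decide
  -- the image of `t`
  have htn : (ψ ⟨1, 0, 0⟩).n = 0 := by
    have hrel : (⟨1, 0, 0⟩ : K) * ⟨0, 1, 0⟩ = ⟨0, 1, 0⟩ * ⟨1, 0, 0⟩ := by
      ext
      · rw [K.mul_a, K.mul_a]; decide
      · rw [K.mul_b, K.mul_b]; decide
      · rw [K.mul_n, K.mul_n]
    have h1 := congrArg ψ hrel
    rw [map_mul, map_mul, hs] at h1
    have h2 := congrArg G.b h1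
    rw [G.mul_b, G.mul_b, q_zero, one_mul] at h2
    have h6 : q (ψ ⟨1, 0, 0⟩).n * b = 1 * b := by
      linear_combination h2
    have h7 := hcanc _ _ h6
    apply q_inj
    rw [h7, q_zero]
  have ht1 : (ψ ⟨1, 0, 0⟩) ^ 25 = 1 := by
    rw [← map_pow]
    have h : (⟨1, 0, 0⟩ : K) ^ 25 = 1 := by
      obtain ⟨h1, h2, h3⟩ := K.pow_n0 ⟨1, 0, 0⟩ rfl 25
      ext
      · rw [h1]; decide
      · rw [h2]; decide
      · rw [h3]; rfl
    rw [h, map_one]
  have htb : (ψ ⟨1, 0, 0⟩).b = 0 := by
    have h1 := congrArg G.b ht1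
    rw [(G.pow_n0 _ htn 25).2.1] at h1
    have h2 : ((4 : ℕ) : ZMod 11) * ((25 : ℕ) : ZMod 11) = 1 := by decide
    have h3 := congrArg (fun z : ZMod 11 => ((4 : ℕ) : ZMod 11) * z) h1
    simp only [← mul_assoc, h2, one_mul] at h3
    rw [h3]
    exact mul_zero _
  set u : ZMod 25 := (ψ ⟨1, 0, 0⟩).a with hu
  have ht : ψ ⟨1, 0, 0⟩ = ⟨u, 0, 0⟩ := by
    ext
    · rfl
    · exact htb
    · exact htn
  -- the relation `x t = t ^ 11 x`
  have h5u : (5 : ZMod 25) * u = 0 := by
    have hrel : (⟨0, 0, 1⟩ : K) * ⟨1, 0, 0⟩ = ⟨1, 0, 0⟩ ^ 11 * ⟨0, 0, 1⟩ := by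
      obtain ⟨h1, h2, h3⟩ := K.pow_n0 ⟨1, 0, 0⟩ rfl 11
      ext
      · rw [K.mul_a, K.mul_a, h1, h3]; decide
      · rw [K.mul_b, K.mul_b, h2, h3]; decide
      · rw [K.mul_n, K.mul_n, h3]; rfl
    have h1 := congrArg ψ hrel
    rw [map_mul, map_mul, map_pow, ht] at h1
    have h2 := congrArg G.a h1
    obtain ⟨h3, h4, h5⟩ := G.pow_n0 ⟨u, 0, 0⟩ rfl 11
    rw [G.mul_a, G.mul_a, h3, h5, f_zero, hx] at h2
    have h6 : f 1 = 5 := by decide
    rw [h6] at h2
    push_cast at h2
    linear_combination -h2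
  have h5 : ψ ((⟨1, 0, 0⟩ : K) ^ 5) = 1 := by
    rw [map_pow, ht]
    obtain ⟨h1, h2, h3⟩ := G.pow_n0 ⟨u, 0, 0⟩ rfl 5
    ext
    · rw [h1]; exact h5u
    · rw [h2]; exact mul_zero _
    · rw [h3]; rfl
  have h6 : (⟨1, 0, 0⟩ : K) ^ 5 = 1 := by
    apply ψ.injective
    rw [h5, map_one]
  have h7 := congrArg K.a h6
  rw [(K.pow_n0 ⟨1, 0, 0⟩ rfl 5).1] at h7
  revert h7
  decide

end Pool.Agent.Helper73_Schmidt
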